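import Pool.Agent.H66.GUA.Targets2

/-!
# KN: the constant of the relation is not zero
-/

set_option autoImplicit false

open Finset Filter Topology

namespace Pool.Agent.H88.GUA

open Pool.Agent.H66.GUA Pool.Agent.H31.DP Pool.Agent.H31.DPD
open Pool.Agent.H24.T2 (Pset box cub)

theorem pf_KN (hDS : T_DS) (hND : P_ND) : T_KN := by
  classical
  intro k n Q x t hk hQ ht hv q hq
  have hvpos : ∀ ω, 0 < vx x t ω := fun ω => (hv ω).1
  have hvdvd : ∀ ω, vx x t ω ∣ (Q : ℤ) := fun ω => (hv ω).2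
  have hQ' : (0 : ℤ) < Q := by exact_mod_cast hQ
  have hvle : ∀ ω, vx x t ω ≤ (Q : ℤ) := fun ω => Int.le_of_dvd hQ' (hvdvd ω)
  set A : Finset ℤ := Finset.univ.image (vx x t) with hA
  have hmem : ∀ ω, vx x t ω ∈ A := fun ω => Finset.mem_image_of_mem _ (Finset.mem_univ ω)
  have hcub : x ∈ cub n A t := ((hDS n A t (fun _ => 0) x).1).mpr hmem
  obtain ⟨a, b, ha, hb, -, -, hab⟩ := hND k n Q A t x hk (by
    intro y hy
    obtain ⟨ω, -, rfl⟩ := Finset.mem_image.mp hy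
    exact ⟨hvpos ω, hvle ω⟩) ht hcub
  rw [(hDS n A t (fun x => 1 / (x : ℝ) ^ k) x).2] at hab
  set K : ℤ := ∑ ω : Finset (Fin n), (-1) ^ ω.card * ((Q : ℤ) / vx x t ω) ^ k with hK
  have hKr : (K : ℝ) = (Q : ℝ) ^ k * ((a : ℝ) / b) := by
    rw [← hab, hK, Finset.mul_sum]
    push_cast
    refine Finset.sum_congr rfl (fun ω _ => ?_)
    have h1 : ((vx x t ω : ℤ) : ℝ) ≠ 0 := by exact_mod_cast (hvpos ω).ne'
    have h2 : (((Q : ℤ) / vx x t ω : ℤ) : ℝ) = (Q : ℝ) / (vx x t ω : ℝ) := by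
      rw [Int.cast_div (hvdvd ω) h1]
      norm_cast
    rw [h2, div_pow]
    ring
  have hK0 : K ≠ 0 := by
    intro h0
    rw [h0] at hKr
    have h1 : (Q : ℝ) ^ k * ((a : ℝ) / b) ≠ 0 := by
      have h2 : (Q : ℝ) ≠ 0 := by exact_mod_cast hQ.ne'
      have h3 : (a : ℝ) ≠ 0 := by exact_mod_cast ha
      have h4 : (b : ℝ) ≠ 0 := by exact_mod_cast hb.ne'
      exact mul_ne_zero (pow_ne_zero _ h2) (div_ne_zero h3 h4)
    exact h1 (by rw [← hKr]; simp)
  have hKle : |K| ≤ 2 ^ n * (Q : ℤ) ^ k := by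
    calc |K| ≤ ∑ ω : Finset (Fin n), |(-1) ^ ω.card * ((Q : ℤ) / vx x t ω) ^ k| :=
          Finset.abs_sum_le_sum_abs _ _
      _ ≤ ∑ _ω : Finset (Fin n), (Q : ℤ) ^ k := by
          refine Finset.sum_le_sum (fun ω _ => ?_)
          rw [abs_mul, abs_pow, abs_neg, abs_one, one_pow, one_mul, abs_pow]
          have h1 : 0 ≤ (Q : ℤ) / vx x t ω := Int.ediv_nonneg hQ'.le (hvpos ω).le
          rw [abs_of_nonneg h1]
          exact pow_le_pow_left₀ h1 (Int.ediv_le_self _ hQ'.le) k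
      _ = 2 ^ n * (Q : ℤ) ^ k := by
          rw [Finset.sum_const, Finset.card_univ, Fintype.card_finset, Fintype.card_fin, nsmul_eq_mul]
          push_cast
          ring
  have hcast : ∑ ω : Finset (Fin n), (-1 : ZMod q) ^ ω.card *
      (((Q : ℤ) / vx x t ω : ℤ) : ZMod q) ^ k = ((K : ℤ) : ZMod q) := by
    rw [hK]
    push_cast
    rfl
  rw [hcast]
  intro h0
  rw [ZMod.intCast_zmod_eq_zero_iff_dvd] at h0
  have h1 : (q : ℤ) ≤ |K| := by
    have h2 := Int.le_of_dvd (abs_pos.mpr hK0) ((dvd_abs _ _).mpr h0)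
    exact h2
  have h2 : (2 : ℤ) ^ n * (Q : ℤ) ^ k < q := by exact_mod_cast hq
  omega

end Pool.Agent.H88.GUA
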